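import Pool.Agent.H36Z.LpM.Main

set_option autoImplicit false

namespace Pool.Agent.Results.MP_5f4cdd_gt.AFreeSums

open Pool.Agent.H36Z.LpM

/-- The non-symmetric `L^p`-Mahler inequality, in every dimension `n` and for every finite `p > 0`,
for every convex body that is an iterated free sum of compact convex sets of dimension at most two
or a polytope with at most `n + 2` vertices. -/
theorem result (n : ℕ) (p : ℝ) (hp : 0 < p) (K : Set (Fin n → ℝ))
    (hK : FreeSum K ∨ ∃ V : Finset (Fin n → ℝ), V.card ≤ n + 2 ∧ K = convexHull ℝ (V : Set _))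
    (hi : (interior K).Nonempty) :
    (⨅ x ∈ simplex n, Mp p ((fun z : Fin n → ℝ => z - x) '' simplex n)) ≤ Mp p K := by
  rcases hK with hK | ⟨V, hV, rfl⟩
  · exact main_free p hp hK hi
  · exact main_few p hp V hV hi

end Pool.Agent.Results.MP_5f4cdd_gt.AFreeSums
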